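import Pool.Agent.RFG43.SolvC

/-!
# `MP_b76cd5_al`: words outside the second derived subgroup, an exponent below two

Let `F` be free of rank `r ≥ 2`. For every `ε > 0` there is `C` such that every word of length
`n` outside the second derived subgroup `F''` survives in a finite metabelian group of order at
most `C n ^ (2 r / (r + 1) + ε)`. The exponent is `4/3 + ε` for `r = 2`.

The proof. Modulo `F''` a word of `F'` is its flow on the edges of the grid `ℤ^r`, that is, a
family of Laurent polynomials in `r` variables with support in a box of side `n` and coefficients
of absolute sum at most `n`. The affine group over `ZMod p` detects the word if one of them does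
not vanish at some point with coordinates in `(ZMod p)ˣ`. By a sieve there are so many numbers
`m` which divide `p - 1` for several primes `p ≤ N`, that the sum of `φ(m)` is `N ^ (2 - o(1))`.
If the polynomial `f` in two variables vanishes at all these points for all `p ≤ N`, then its push
forwards to one variable in all directions `(i, j)`, `1 ≤ i, j ≤ R`, vanish at all `m`-th roots of
unity, hence are zero if `R n < N ^ (2 - o(1))`. Then the Newton polygon of `f` has an edge in
each of these directions, which needs `R ^ 3 ≤ n ^ (1 + o(1))`. This gives `N ≤ n ^ (2/3 + o(1))`
for two variables. For `k ≥ 3` variables let `H = n ^ (1 / (k + 1) + δ)`. Most primitive vectors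
`e` of size `H` span the kernel of a linear map from `ℤ^k` to `ℤ^(k - 1)` with entries of size
`H ^ (1 / (k - 1) + o(1))`. If the push forwards of `f` along these maps all vanish, then `f` is
divisible by the product of the `X ^ e - 1`, which does not fit in the box. So one of them does
not vanish, and the number of variables drops by one.
-/

set_option autoImplicit false

namespace Pool.Agent.Results.MP_b76cd5_al.BelowSquare

/-- **Words outside the second derived subgroup, an exponent below two.** For every `r ≥ 2` and
`ε > 0` there is a constant `C` such that for every free group `G` with a basis `b` of `r`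
elements and every element `g` of `G` outside the second derived subgroup, of length `n` with
respect to `b`, some finite group of order at most `C n ^ (2 r / (r + 1) + ε)` has a
homomorphism `π` from `G` that does not kill `g` and kills the second derived subgroup. -/
theorem result (r : ℕ) (hr : 2 ≤ r) (ε : ℝ) (hε : 0 < ε) : ∃ C : ℝ, 0 < C ∧
    ∀ (G ι : Type) [Group G] [DecidableEq ι] [Fintype ι] (b : FreeGroupBasis ι G),
    Fintype.card ι = r → ∀ g : G, g ∉ derivedSeries G 2 →
    ∃ (Q : Type) (_ : Group Q) (π : G →* Q), Finite Q ∧ π g ≠ 1 ∧
      (∀ x ∈ derivedSeries G 2, π x = 1) ∧
      (Nat.card Q : ℝ) ≤ C * ((b.repr g).norm : ℝ) ^ (2 * (r : ℝ) / (r + 1) + ε) :=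
  Pool.Agent.RFG43.Solv.below_exact r hr ε hε

end Pool.Agent.Results.MP_b76cd5_al.BelowSquare
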