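import Pool.Agent.RFG43.IdxBound

/-!
# `MP_b76cd5_al`: words outside the second derived subgroup of a subgroup of index two

Let `F` be free of rank two and `R` one of its three subgroups of index two. For every `ε > 0`
there is `C` such that every word of length `n` outside `R''` survives in a finite group of order
at most `C n ^ (44/15 + ε)`, a quotient of `F / R''`. Since `44/15 < 3` this is below the cubic
bound. The subgroup `R''` does not contain `F''`.

The proof. The subgroup `R` is free of rank three, and `F` embeds in the wreath product of a free
group of rank three with a group of order two, with words of length `n` going to pairs of words of
length `O(n)`. So it is enough to detect words of length `n` outside the second derived subgroup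
of a free group of rank three in groups of order below `n ^ (3/2)`. This is done with the affine
group over `ZMod p` for a prime `p ≤ n ^ (11/15 + o(1))`: modulo the second derived subgroup a
word is a family of Laurent polynomials in three variables with support in a box of side `n`, and
if such a polynomial vanishes at all points with coordinates in `(ZMod p)ˣ` for all `p ≤ N`, then
a sieve gives its vanishing at many torsion points; hence its push forwards to the plane vanish
for many directions or have Newton polygons with too many edges, and the first needs more vertices
of the Newton polytope of the polynomial than there can be.
-/

set_option autoImplicit false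

namespace Pool.Agent.Results.MP_b76cd5_al.IndexTwo

/-- **Words outside the second derived subgroup of a subgroup of index two.** For every `ε > 0`
there is a constant `C` such that for every free group `G` of rank two with basis `b`, every
subgroup `R` of index two and every element `g` of `G` outside `R''`, of length `n` with respect
to `b`, some finite group of order at most `C n ^ (44/15 + ε)` has a homomorphism `π` from `G`
that does not kill `g` and kills `R''`. -/
theorem result (ε : ℝ) (hε : 0 < ε) : ∃ C : ℝ, 0 < C ∧
    ∀ (G : Type) [Group G] (b : FreeGroupBasis (Fin 2) G) (R : Subgroup G), R.index = 2 →
    ∀ g : G, g ∉ (derivedSeries R 2).map R.subtype →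
    ∃ (Q : Type) (_ : Group Q) (π : G →* Q), Finite Q ∧ π g ≠ 1 ∧
      (∀ x ∈ (derivedSeries R 2).map R.subtype, π x = 1) ∧
      (Nat.card Q : ℝ) ≤ C * ((b.repr g).norm : ℝ) ^ (44 / 15 + ε) :=
  Pool.Agent.RFG43.idx_bound ε hε

end Pool.Agent.Results.MP_b76cd5_al.IndexTwo
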